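import Pool.Agent.K1H51.Cross

set_option autoImplicit false

/-!
A connected digraph and a ring family of vertex sets without entering arcs: if every proper
nonempty member has at least two leaving arcs, then the arcs can be split into two parts which
both meet the set of leaving arcs of every such member.
-/

namespace Pool.Agent.K1H34.Dij

open Finset Pool.Agent.K1H51.Trunc Pool.Agent.K1H51.Cross

variable {V A : Type*} [DecidableEq V] [Fintype V] [DecidableEq A] [Fintype A]

/-- Net outflow of `y` at `v`. -/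
def net (s t : A → V) (y : A → ℤ) (v : V) : ℤ :=
  ∑ a, ((if s a = v then y a else 0) - (if t a = v then y a else 0))

theorem net_sum (s t : A → V) (y : A → ℤ) (U : Finset V) :
    ∑ v ∈ U, net s t y v = ∑ a, ((if s a ∈ U then y a else 0) - (if t a ∈ U then y a else 0)) := by
  unfold net
  rw [sum_comm]
  refine sum_congr rfl fun a _ => ?_
  rw [sum_sub_distrib, Finset.sum_ite_eq, Finset.sum_ite_eq]

/-- A unit flow between connected vertices. -/
theorem unit_flow (s t : A → V) {u v : V}
    (h : Relation.EqvGen (fun x y => ∃ a, s a = x ∧ t a = y) u v) :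
    ∃ y : A → ℤ, ∀ z, net s t y z = (if u = z then 1 else 0) - (if v = z then 1 else 0) := by
  induction h with
  | rel x y h =>
    obtain ⟨a, ha, hb⟩ := h
    refine ⟨fun c => if c = a then 1 else 0, fun z => ?_⟩
    unfold net
    rw [sum_eq_single a]
    · subst ha hb
      simp
    · intro c _ hc
      simp [hc]
    · intro h; exact absurd (mem_univ _) h
  | refl x => exact ⟨fun _ => 0, fun z => by simp [net]⟩
  | symm x y _ ih =>
    obtain ⟨f, hf⟩ := ih
    refine ⟨fun c => -f c, fun z => ?_⟩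
    have : net s t (fun c => -f c) z = -net s t f z := by
      unfold net
      rw [← sum_neg_distrib]
      refine sum_congr rfl fun a _ => ?_
      split_ifs <;> ring
    rw [this, hf z]
    ring
  | trans x y z _ _ ih1 ih2 =>
    obtain ⟨f, hf⟩ := ih1
    obtain ⟨g, hg⟩ := ih2
    refine ⟨fun c => f c + g c, fun w => ?_⟩
    have : net s t (fun c => f c + g c) w = net s t f w + net s t g w := by
      unfold net
      rw [← sum_add_distrib]
      refine sum_congr rfl fun a _ => ?_
      split_ifs <;> ring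
    rw [this, hf w, hg w]
    ring

/-- An integral flow with prescribed net outflow in a connected digraph. -/
theorem flow (s t : A → V)
    (hc : ∀ u v, Relation.EqvGen (fun x y => ∃ a, s a = x ∧ t a = y) u v)
    (b : V → ℤ) (hb : ∑ v, b v = 0) : ∃ y : A → ℤ, ∀ z, net s t y z = b z := by
  classical
  rcases isEmpty_or_nonempty V with hV | ⟨⟨r⟩⟩
  · exact ⟨fun _ => 0, fun z => (hV.false z).elim⟩
  choose f hf using fun z : V => unit_flow s t (hc z r)
  refine ⟨fun a => ∑ z, b z * f z a, fun v => ?_⟩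
  have e1 : net s t (fun a => ∑ z, b z * f z a) v = ∑ z, b z * net s t (f z) v := by
    unfold net
    simp_rw [mul_sum]
    rw [sum_comm]
    refine sum_congr rfl fun a _ => ?_
    simp_rw [mul_sub, sum_sub_distrib]
    congr 1
    · split_ifs <;> simp
    · split_ifs <;> simp
  rw [e1]
  simp_rw [hf, mul_sub, sum_sub_distrib]
  have e2 : ∑ z, b z * (if z = v then 1 else 0) = b v := by simp
  have e3 : ∑ z, b z * (if r = v then 1 else 0) = 0 := by
    rw [← sum_mul, hb, zero_mul]
  rw [e2, e3, sub_zero]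

/-- Sum of a function over the arcs leaving `U` when no arc enters `U`. -/
theorem cut_sum (s t : A → V) (U : Finset V) (hin : ∀ a, t a ∈ U → s a ∈ U) (y : A → ℤ) :
    ∑ v ∈ U, net s t y v = ∑ a ∈ univ.filter (fun a => s a ∈ U ∧ t a ∉ U), y a := by
  rw [net_sum, sum_filter]
  refine sum_congr rfl fun a _ => ?_
  have := hin a
  by_cases h1 : s a ∈ U <;> by_cases h2 : t a ∈ U <;> simp_all

/-- **The core theorem.** -/
theorem core (s t : A → V)
    (hc : ∀ u v, Relation.EqvGen (fun x y => ∃ a, s a = x ∧ t a = y) u v)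
    (L : Finset V → Prop) (hL : Ring' L) (hL0 : L ∅) (hL1 : L univ)
    (hin : ∀ U, L U → ∀ a, t a ∈ U → s a ∈ U)
    (hd : ∀ U, L U → U.Nonempty → U ≠ univ →
      2 ≤ (univ.filter (fun a => s a ∈ U ∧ t a ∉ U)).card) :
    ∃ F1 : Finset A, ∀ U, L U → U.Nonempty → U ≠ univ →
      (∃ a ∈ F1, s a ∈ U ∧ t a ∉ U) ∧ (∃ a, a ∉ F1 ∧ s a ∈ U ∧ t a ∉ U) := by
  classical
  set δ : V → ℤ := net s t (fun _ => 1) with hδ
  set c : Finset V → ℕ := fun U => (univ.filter (fun a => s a ∈ U ∧ t a ∉ U)).card with hcdef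
  have hcδ : ∀ U, L U → ((c U : ℕ) : ℤ) = ∑ v ∈ U, δ v := by
    intro U hU
    rw [hδ, cut_sum s t U (hin U hU)]
    simp [hcdef]
  have hsumδ : ∑ v, δ v = 0 := by
    rw [← hcδ univ hL1]
    simp [hcdef]
  obtain ⟨w, hw, hw0, hwq⟩ := exists_w L hL hL0 hL1 (fun U => c U - 2) δ
    (by
      intro X Y hX hY hne hu
      have hXne : X.Nonempty := hne.mono inter_subset_left
      have hYne : Y.Nonempty := hne.mono inter_subset_right
      have hXu : X ≠ univ := by rintro rfl; apply hu; ext; simp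
      have hYu : Y ≠ univ := by rintro rfl; apply hu; ext; simp
      have hIu : X ∩ Y ≠ univ := by
        intro h
        apply hXu
        rw [← univ_subset_iff, ← h]
        exact inter_subset_left
      have hUne : (X ∪ Y).Nonempty := hXne.mono subset_union_left
      obtain ⟨l1, l2⟩ := hL X Y hX hY
      have a1 := hd X hX hXne hXu
      have a2 := hd Y hY hYne hYu
      have a3 := hd _ l1 hne hIu
      have a4 := hd _ l2 hUne hu
      have a5 : ∑ v ∈ X ∪ Y, δ v + ∑ v ∈ X ∩ Y, δ v = ∑ v ∈ X, δ v + ∑ v ∈ Y, δ v :=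
        sum_union_inter
      rw [← hcδ _ l2, ← hcδ _ l1, ← hcδ _ hX, ← hcδ _ hY] at a5
      change 2 ≤ c X at a1
      change 2 ≤ c Y at a2
      change 2 ≤ c (X ∩ Y) at a3
      change 2 ≤ c (X ∪ Y) at a4
      show c (X ∩ Y) - 2 + (c (X ∪ Y) - 2) ≤ c X - 2 + (c Y - 2)
      omega)
    (by
      intro X hX hne hu
      have a1 := hd X hX hne hu
      change 2 ≤ c X at a1
      show (2 : ℤ) ∣ ((c X - 2 : ℕ) : ℤ) - ∑ v ∈ X, δ v
      rw [Nat.cast_sub a1, hcδ X hX]
      push_cast
      exact ⟨-1, by ring⟩)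
    (by rw [hsumδ]; exact dvd_zero _)
  choose b hb using hwq
  -- `w v - δ v = 2 * b v`
  have hB : ∑ v, (b v + δ v) = 0 := by
    have h1 : ∑ v, (w v - δ v) = ∑ v, 2 * b v := sum_congr rfl fun v _ => hb v
    rw [sum_sub_distrib, hw0, hsumδ, ← mul_sum] at h1
    rw [sum_add_distrib, hsumδ]
    omega
  obtain ⟨y, hy⟩ := flow s t hc (fun v => b v + δ v) hB
  refine ⟨univ.filter (fun a => 1 ≤ y a), ?_⟩
  intro U hU hne hu
  obtain ⟨b1, b2⟩ := hw U hU hne hu
  have a1 := hd U hU hne hu
  change 2 ≤ c U at a1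
  have hcast : ((c U - 2 : ℕ) : ℤ) = (c U : ℤ) - 2 := by rw [Nat.cast_sub a1]; rfl
  simp only [hcast] at b1 b2
  have e1 : ∑ v ∈ U, (b v + δ v) = ∑ a ∈ univ.filter (fun a => s a ∈ U ∧ t a ∉ U), y a := by
    rw [← cut_sum s t U (hin U hU)]
    exact sum_congr rfl fun v _ => (hy v).symm
  have e2 : 2 * ∑ v ∈ U, (b v + δ v) = ∑ v ∈ U, w v + c U := by
    rw [hcδ U hU, ← sum_add_distrib, mul_sum]
    refine sum_congr rfl fun v _ => ?_
    have := hb v
    linarith
  constructor
  · by_contra hcon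
    push Not at hcon
    have h3 : ∑ a ∈ univ.filter (fun a => s a ∈ U ∧ t a ∉ U), y a ≤ 0 := by
      refine sum_nonpos fun a ha => ?_
      rw [mem_filter] at ha
      by_contra hpos
      exact ha.2.2 (hcon a (by rw [mem_filter]; exact ⟨mem_univ _, by omega⟩) ha.2.1)
    rw [← e1] at h3
    omega
  · by_contra hcon
    push Not at hcon
    have h3 : (c U : ℤ) ≤ ∑ a ∈ univ.filter (fun a => s a ∈ U ∧ t a ∉ U), y a := by
      have : (c U : ℤ) = ∑ a ∈ univ.filter (fun a => s a ∈ U ∧ t a ∉ U), (1 : ℤ) := by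
        simp [hcdef]
      rw [this]
      refine sum_le_sum fun a ha => ?_
      rw [mem_filter] at ha
      by_contra hlt
      exact ha.2.2 (hcon a (by rw [mem_filter]; rintro ⟨_, h⟩; exact hlt h) ha.2.1)
    rw [← e1] at h3
    omega

end Pool.Agent.K1H34.Dij
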