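import Mathlib
import Pool.Agent.K1H34.Dij.Core

set_option autoImplicit false

/-!
# Weakly connected 2-dijoins split into two dijoins

A finite digraph (parallel arcs and loops allowed) is given by a finite type `V` of vertices, a
finite type `A` of arcs and the maps `s t : A → V` (tail and head).
-/

namespace Pool.Agent.Results.MP_eda7df_co.TwoDijoins

open Finset

variable {V A : Type*} [Fintype V] [DecidableEq V] [Fintype A] [DecidableEq A]

/-- The set of arcs leaving the vertex set `X`. -/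
def leaving (s t : A → V) (X : Finset V) : Finset A :=
  univ.filter (fun a => s a ∈ X ∧ t a ∉ X)

/-- The set of arcs entering the vertex set `X`. -/
def entering (s t : A → V) (X : Finset V) : Finset A :=
  univ.filter (fun a => s a ∉ X ∧ t a ∈ X)

/-- `C` is a directed cut: a nonempty arc set of the form `leaving X` with `X ≠ ∅`, `X ≠ V` and
no arc entering `X`. -/
def IsDicut (s t : A → V) (C : Finset A) : Prop :=
  C.Nonempty ∧ ∃ X : Finset V, X.Nonempty ∧ X ≠ univ ∧ entering s t X = ∅ ∧ C = leaving s t X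

/-- `F` is a `k`-dijoin: it contains at least `k` arcs of every directed cut. -/
def IsKDijoin (s t : A → V) (k : ℕ) (F : Finset A) : Prop :=
  ∀ C : Finset A, IsDicut s t C → k ≤ (F ∩ C).card

/-- The underlying undirected graph of the arcs of `F`, on all vertices. -/
def underlying (s t : A → V) (F : Finset A) : SimpleGraph V :=
  SimpleGraph.fromRel (fun u v => ∃ a ∈ F, s a = u ∧ t a = v)

/-- The endpoints of the arcs of `F`. -/
def endpoints (s t : A → V) (F : Finset A) : Set V := {v | ∃ a ∈ F, s a = v ∨ t a = v}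

/-- `F` is weakly connected: the undirected graph formed by the arcs of `F` and their endpoints
is connected (for `F = ∅` the condition holds by convention). -/
def WeaklyConnected (s t : A → V) (F : Finset A) : Prop :=
  ((underlying s t F).induce (endpoints s t F)).Preconnected

/-- Every weakly connected 2-dijoin of every finite digraph can be partitioned into two
dijoins. -/
theorem result (V A : Type*) [Fintype V] [DecidableEq V] [Fintype A] [DecidableEq A]
    (s t : A → V) (F : Finset A) (hF : IsKDijoin s t 2 F) (hc : WeaklyConnected s t F) :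
    ∃ F₁ F₂ : Finset A, F₁ ∪ F₂ = F ∧ F₁ ∩ F₂ = ∅ ∧
      IsKDijoin s t 1 F₁ ∧ IsKDijoin s t 1 F₂ := by
  classical
  set V' := {v : V // v ∈ endpoints s t F} with hV'
  set A' := {a : A // a ∈ F} with hA'
  set s' : A' → V' := fun a => ⟨s a.1, a.1, a.2, Or.inl rfl⟩ with hs'
  set t' : A' → V' := fun a => ⟨t a.1, a.1, a.2, Or.inr rfl⟩ with ht'
  have hconn : ∀ u v : V', Relation.EqvGen (fun x y => ∃ a, s' a = x ∧ t' a = y) u v := by
    intro u v
    obtain ⟨p⟩ := hc u v
    induction p with
    | nil => exact Relation.EqvGen.refl _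
    | @cons x y z h p ih =>
      refine Relation.EqvGen.trans _ _ _ ?_ ih
      have h2 : (underlying s t F).Adj x.1 y.1 := h
      unfold underlying at h2
      rw [SimpleGraph.fromRel_adj] at h2
      rcases h2.2 with ⟨a, haF, ha, hb⟩ | ⟨a, haF, ha, hb⟩
      · exact Relation.EqvGen.rel _ _ ⟨⟨a, haF⟩, Subtype.ext ha, Subtype.ext hb⟩
      · exact Relation.EqvGen.symm _ _
          (Relation.EqvGen.rel _ _ ⟨⟨a, haF⟩, Subtype.ext ha, Subtype.ext hb⟩)
  have hin0 : ∀ X : Finset V, entering s t X = ∅ → ∀ a, t a ∈ X → s a ∈ X := by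
    intro X hX a ha
    by_contra h
    have : a ∈ entering s t X := by
      unfold entering
      rw [mem_filter]
      exact ⟨mem_univ _, h, ha⟩
    rw [hX] at this
    exact absurd this (notMem_empty a)
  have hin1 : ∀ X : Finset V, (∀ a, t a ∈ X → s a ∈ X) → entering s t X = ∅ := by
    intro X hX
    unfold entering
    rw [filter_eq_empty_iff]
    rintro a - ⟨h1, h2⟩
    exact h1 (hX a h2)
  set tr : Finset V → Finset V' := fun X => univ.filter (fun v => v.1 ∈ X) with htr
  have mtr : ∀ (X : Finset V) (v : V'), v ∈ tr X ↔ v.1 ∈ X := by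
    intro X v; simp [htr]
  set L : Finset V' → Prop := fun U => ∃ X : Finset V, entering s t X = ∅ ∧ U = tr X with hL
  have hring : Pool.Agent.K1H51.Trunc.Ring' L := by
    rintro U W ⟨X, hX, rfl⟩ ⟨Y, hY, rfl⟩
    constructor
    · refine ⟨X ∩ Y, hin1 _ ?_, ?_⟩
      · intro a ha
        rw [mem_inter] at ha ⊢
        exact ⟨hin0 X hX a ha.1, hin0 Y hY a ha.2⟩
      · ext v
        rw [mem_inter, mtr, mtr, mtr, mem_inter]
    · refine ⟨X ∪ Y, hin1 _ ?_, ?_⟩
      · intro a ha
        rw [mem_union] at ha ⊢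
        exact ha.imp (hin0 X hX a) (hin0 Y hY a)
      · ext v
        rw [mem_union, mtr, mtr, mtr, mem_union]
  have hL0 : L ∅ := ⟨∅, hin1 _ (by simp), by ext v; simp [htr]⟩
  have hL1 : L univ := ⟨univ, hin1 _ (by simp), by ext v; simp [htr]⟩
  have hins : ∀ U, L U → ∀ a, t' a ∈ U → s' a ∈ U := by
    rintro U ⟨X, hX, rfl⟩ a ha
    rw [mtr] at ha ⊢
    exact hin0 X hX _ ha
  -- cuts of `F` in terms of traces
  have hcard : ∀ X : Finset V, (F ∩ leaving s t X).card =
      (univ.filter (fun a : A' => s' a ∈ tr X ∧ t' a ∉ tr X)).card := by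
    intro X
    symm
    refine card_bij (fun a _ => a.1) ?_ ?_ ?_
    · intro a ha
      rw [mem_filter, mtr, mtr] at ha
      rw [mem_inter]
      refine ⟨a.2, ?_⟩
      unfold leaving
      rw [mem_filter]
      exact ⟨mem_univ _, ha.2⟩
    · intro a _ b _ h
      exact Subtype.ext h
    · intro b hb
      rw [mem_inter] at hb
      unfold leaving at hb
      rw [mem_filter] at hb
      refine ⟨⟨b, hb.1⟩, ?_, rfl⟩
      rw [mem_filter, mtr, mtr]
      exact ⟨mem_univ _, hb.2.2⟩
  have hd : ∀ U, L U → U.Nonempty → U ≠ univ →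
      2 ≤ (univ.filter (fun a => s' a ∈ U ∧ t' a ∉ U)).card := by
    rintro U ⟨X, hX, rfl⟩ ⟨u, hu⟩ hne
    obtain ⟨v, hv⟩ : ∃ v, v ∉ tr X := by
      by_contra h
      push Not at h
      exact hne (eq_univ_iff_forall.2 h)
    rw [mtr] at hu hv
    rw [← hcard]
    refine hF _ ⟨?_, X, ⟨u.1, hu⟩, ?_, hX, rfl⟩
    · -- some arc leaves `X`
      by_contra hemp
      rw [not_nonempty_iff_eq_empty] at hemp
      have hinv : ∀ x y : V', Relation.EqvGen (fun x y => ∃ a, s' a = x ∧ t' a = y) x y →
          (x.1 ∈ X ↔ y.1 ∈ X) := by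
        intro x y h
        induction h with
        | rel x y h =>
          obtain ⟨a, rfl, rfl⟩ := h
          constructor
          · intro hx
            by_contra hy
            have : a.1 ∈ leaving s t X := by
              unfold leaving
              rw [mem_filter]
              exact ⟨mem_univ _, hx, hy⟩
            rw [hemp] at this
            exact absurd this (notMem_empty _)
          · intro hy
            exact hin0 X hX _ hy
        | refl x => exact Iff.rfl
        | symm x y _ ih => exact ih.symm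
        | trans x y z _ _ ih1 ih2 => exact ih1.trans ih2
      exact hv ((hinv u v (hconn u v)).1 hu)
    · intro h
      rw [h] at hv
      exact hv (mem_univ _)
  obtain ⟨F1, hF1⟩ := Pool.Agent.K1H34.Dij.core s' t' hconn L hring hL0 hL1 hins hd
  -- every dicut has a proper nonempty trace
  have key : ∀ X : Finset V, entering s t X = ∅ → X.Nonempty → X ≠ univ →
      (leaving s t X).Nonempty →
      (∃ a : A', a ∈ F1 ∧ s a.1 ∈ X ∧ t a.1 ∉ X) ∧ (∃ a : A', a ∉ F1 ∧ s a.1 ∈ X ∧ t a.1 ∉ X) := by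
    intro X hX hne hu hC
    have h2 := hF _ ⟨hC, X, hne, hu, hX, rfl⟩
    obtain ⟨a, ha⟩ : (F ∩ leaving s t X).Nonempty := by
      rw [← card_pos]; omega
    rw [mem_inter] at ha
    have ha2 := ha.2
    unfold leaving at ha2
    rw [mem_filter] at ha2
    obtain ⟨⟨x, hx, hx1, hx2⟩, ⟨z, hz, hz1, hz2⟩⟩ := hF1 (tr X) ⟨X, hX, rfl⟩
      ⟨s' ⟨a, ha.1⟩, (mtr _ _).2 ha2.2.1⟩ (by
        intro h
        exact ha2.2.2 ((mtr X (t' ⟨a, ha.1⟩)).1 (h ▸ mem_univ _)))
    rw [mtr] at hx1 hx2 hz1 hz2
    exact ⟨⟨x, hx, hx1, hx2⟩, ⟨z, hz, hz1, hz2⟩⟩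
  have hsub : F1.map (Function.Embedding.subtype _) ⊆ F := by
    intro a ha
    rw [mem_map] at ha
    obtain ⟨b, _, rfl⟩ := ha
    exact b.2
  refine ⟨F1.map (Function.Embedding.subtype _), F \ F1.map (Function.Embedding.subtype _),
    ?_, ?_, ?_, ?_⟩
  · exact union_sdiff_of_subset hsub
  · ext a; simp
  · rintro C ⟨hC, X, hne, hu, hX, rfl⟩
    obtain ⟨⟨a, ha, ha1, ha2⟩, _⟩ := key X hX hne hu hC
    rw [Nat.one_le_iff_ne_zero, ← pos_iff_ne_zero, card_pos]
    refine ⟨a.1, ?_⟩
    rw [mem_inter]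
    refine ⟨mem_map.2 ⟨a, ha, rfl⟩, ?_⟩
    unfold leaving
    rw [mem_filter]
    exact ⟨mem_univ _, ha1, ha2⟩
  · rintro C ⟨hC, X, hne, hu, hX, rfl⟩
    obtain ⟨_, ⟨a, ha, ha1, ha2⟩⟩ := key X hX hne hu hC
    rw [Nat.one_le_iff_ne_zero, ← pos_iff_ne_zero, card_pos]
    refine ⟨a.1, ?_⟩
    rw [mem_inter, mem_sdiff]
    refine ⟨⟨a.2, ?_⟩, ?_⟩
    · intro h
      rw [mem_map] at h
      obtain ⟨b, hb, hba⟩ := h
      exact ha ((Subtype.ext hba : b = a) ▸ hb)
    unfold leaving
    rw [mem_filter]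
    exact ⟨mem_univ _, ha1, ha2⟩

end Pool.Agent.Results.MP_eda7df_co.TwoDijoins
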